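import Pool.Agent.W387.Q.Mom
import Pool.Agent.TH303.LTwo

/-!
All moments of the area of square-lattice self-avoiding polygons: for every `k`, the `k`-th moments
of the area (plain and normalised by the mean) at perimeters `2 n` and `2 n + 2` differ by a factor
`1 + O((log n) / n^(1/2))`; convergence of the normalised moments along sparse sequences
implies convergence.
-/

open Filter Topology

namespace Pool.Agent.Results.MP_f6626d_co.AllMomentsLogTwo

/-- a closed nearest-neighbour loop on `ℤ²` with `m` steps, rooted at the origin and oriented,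
that visits no vertex twice -/
def IsLoop (m : ℕ) (f : ZMod m → ℤ × ℤ) : Prop :=
  f 0 = 0 ∧ Function.Injective f ∧
    ∀ i : ZMod m, |(f (i + 1)).1 - (f i).1| + |(f (i + 1)).2 - (f i).2| = 1

/-- the edge from `f k` to `f (k+1)` is horizontal, joins the columns `x = a` and `x = a + 1`, and
has height larger than `b`: it lies above the unit cell `[a, a+1] × [b, b+1]` -/
def Above (m : ℕ) (f : ZMod m → ℤ × ℤ) (a b : ℤ) (k : ZMod m) : Prop :=
  (((f k).1 = a ∧ (f (k + 1)).1 = a + 1) ∨ ((f k).1 = a + 1 ∧ (f (k + 1)).1 = a)) ∧ b < (f k).2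

/-- the unit cell `[a, a+1] × [b, b+1]` is enclosed by the loop: the vertical ray from the cell
upwards crosses an odd number of edges -/
def Encl (m : ℕ) (f : ZMod m → ℤ × ℤ) (c : ℤ × ℤ) : Prop :=
  Odd (Nat.card {k : ZMod m // Above m f c.1 c.2 k})

/-- the area: the number of unit cells enclosed by the loop -/
noncomputable def area (m : ℕ) (f : ZMod m → ℤ × ℤ) : ℕ := Nat.card {c : ℤ × ℤ // Encl m f c}

/-- expectation under the uniform law on the (rooted, oriented) self-avoiding polygons of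
perimeter `2 n` -/
noncomputable def E (n : ℕ) (F : (ZMod (2 * n) → ℤ × ℤ) → ℝ) : ℝ :=
  (∑ᶠ f ∈ {f : ZMod (2 * n) → ℤ × ℤ | IsLoop (2 * n) f}, F f) /
    ({f : ZMod (2 * n) → ℤ × ℤ | IsLoop (2 * n) f}.ncard : ℝ)

/-- the `k`-th moment `E[A_n^k]` of the area -/
noncomputable def moment (k n : ℕ) : ℝ := E n (fun f => (area (2 * n) f : ℝ) ^ k)

/-- the mean area `E[A_n]` -/
noncomputable def meanArea (n : ℕ) : ℝ := E n (fun f => (area (2 * n) f : ℝ))

/-- the `k`-th moment `E[(A_n / E[A_n])^k]` of the normalised area -/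
noncomputable def nmoment (k n : ℕ) : ℝ := E n (fun f => ((area (2 * n) f : ℝ) / meanArea n) ^ k)

lemma nmoment_eq (k n : ℕ) : nmoment k n = Pool.Agent.H739K.MOM.NK k n := rfl

lemma nmoment_pos (k : ℕ) {n : ℕ} (hn : 2 ≤ n) : 0 < nmoment k n := by
  rw [nmoment_eq, Pool.Agent.H739K.MOM.NK_eq k n hn]
  have h1 := Pool.Agent.H739K.MOM.MK_pos k n hn
  have h2 := Pool.Agent.H739K.MA_pos hn
  positivity

/-- **Theorem.** (1) For every `k` there is `K` such that for all `n ≥ 2`
`|E[A_{n+1}^k] / E[A_n^k] - 1| ≤ K (log n) / n^(1/2)`, and the same holds for the moments of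
the normalised area `A_n / E[A_n]`. (2) Let `s_j → ∞` be a sequence of integers with
`(s_{j+1} - s_j) (log s_j) / s_j^(1/2) → 0` and `m > 0`. If `E[(A_n/E[A_n])^k] → m` along
`n = s_j`, then along all `n`. -/
theorem result : (∀ k : ℕ, ∃ K : ℝ, ∀ n : ℕ, 2 ≤ n →
      |moment k (n + 1) / moment k n - 1| ≤ K * (Real.log n / Real.sqrt n) ∧
      |nmoment k (n + 1) / nmoment k n - 1| ≤ K * (Real.log n / Real.sqrt n)) ∧
    ∀ (k : ℕ) (s : ℕ → ℕ), Tendsto s atTop atTop →
      Tendsto (fun j => ((s (j + 1) : ℝ) - s j) * (Real.log (s j) / Real.sqrt (s j)))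
        atTop (𝓝 0) →
      ∀ m : ℝ, 0 < m → Tendsto (fun j => nmoment k (s j)) atTop (𝓝 m) →
        Tendsto (fun n => nmoment k n) atTop (𝓝 m) := by
  refine ⟨fun k => ?_, fun k s hs hgap' m hm h => ?_⟩
  · obtain ⟨K, hK⟩ := Pool.Agent.W387.Q.MOM.all_moments k
    exact ⟨K, fun n hn => by rw [← Pool.Agent.TH508.LT.rN_eq hn]; exact hK n hn⟩
  have hgap := Pool.Agent.TH303.LTwo.gap s hs hgap'
  obtain ⟨K, hK⟩ := Pool.Agent.W387.Q.MOM.all_moments k
  exact Pool.Agent.W387.Q.mul_gen (fun n => nmoment k n) K (fun n hn => nmoment_pos k hn)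
    (fun n hn => (hK n hn).2) s hs hgap m hm h

end Pool.Agent.Results.MP_f6626d_co.AllMomentsLogTwo
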