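import Pool.Agent.TH262.SawL.Area5
import Pool.Agent.TH262.SawL.Xi

/-!
The tails of the area of the planar self-avoiding polygons.  The probability that the area of the
uniform polygon with `2 n` steps is at least `k^2` lies, up to factors `exp (± K (log n)^4)`,
between the probabilities that the width is at least `2 k` and that it is at least `k`, and between
the probabilities that the end point of the uniform `2 n`-step self-avoiding walk is `(4 k, 0)` and
`(2 k, 0)`; so the area has the exponent `2 θ` exactly when the correlation length of the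
self-avoiding walk has the exponent `θ`.
-/

set_option autoImplicit false

namespace Pool.Agent.Results.MP_f6626d_co.AreaTails

open Filter Topology

/-- a closed nearest-neighbour loop on `ℤ²` with `m` steps, rooted at the origin and oriented,
that visits no vertex twice -/
def IsLoop (m : ℕ) (f : ZMod m → ℤ × ℤ) : Prop :=
  f 0 = 0 ∧ Function.Injective f ∧
    ∀ i : ZMod m, |(f (i + 1)).1 - (f i).1| + |(f (i + 1)).2 - (f i).2| = 1

/-- the edge from `f k` to `f (k+1)` is horizontal, joins the columns `x = a` and `x = a + 1`, and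
has height larger than `b`: it lies above the unit cell `[a, a+1] × [b, b+1]` -/
def Above (m : ℕ) (f : ZMod m → ℤ × ℤ) (a b : ℤ) (k : ZMod m) : Prop :=
  (((f k).1 = a ∧ (f (k + 1)).1 = a + 1) ∨ ((f k).1 = a + 1 ∧ (f (k + 1)).1 = a)) ∧ b < (f k).2

/-- the unit cell `[a, a+1] × [b, b+1]` is enclosed by the loop: the vertical ray from the cell
upwards crosses an odd number of edges -/
def Encl (m : ℕ) (f : ZMod m → ℤ × ℤ) (c : ℤ × ℤ) : Prop :=
  Odd (Nat.card {k : ZMod m // Above m f c.1 c.2 k})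

/-- the area: the number of unit cells enclosed by the loop -/
noncomputable def area (m : ℕ) (f : ZMod m → ℤ × ℤ) : ℕ := Nat.card {c : ℤ × ℤ // Encl m f c}

/-- the width (horizontal extent) of a loop -/
noncomputable def width (m : ℕ) (f : ZMod m → ℤ × ℤ) : ℕ :=
  sSup {w : ℕ | ∃ i j, w = ((f i).1 - (f j).1).natAbs}

/-- the proportion of the self-avoiding polygons of perimeter `2 n` with area at least `r` -/
noncomputable def large (n : ℕ) (r : ℝ) : ℝ :=
  ({f : ZMod (2 * n) → ℤ × ℤ | IsLoop (2 * n) f ∧ r ≤ area (2 * n) f}.ncard : ℝ) /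
    ({f : ZMod (2 * n) → ℤ × ℤ | IsLoop (2 * n) f}.ncard : ℝ)

/-- the proportion of the self-avoiding polygons of perimeter `2 n` with width at least `r` -/
noncomputable def wide (n : ℕ) (r : ℝ) : ℝ :=
  ({f : ZMod (2 * n) → ℤ × ℤ | IsLoop (2 * n) f ∧ r ≤ width (2 * n) f}.ncard : ℝ) /
    ({f : ZMod (2 * n) → ℤ × ℤ | IsLoop (2 * n) f}.ncard : ℝ)

/-- `ω` is an `n`-step self-avoiding walk on `ℤ²` started at the origin. -/
def IsSAW (n : ℕ) (ω : Fin (n + 1) → ℤ × ℤ) : Prop :=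
  ω 0 = (0, 0) ∧
  (∀ i : Fin n, |(ω i.succ).1 - (ω i.castSucc).1| + |(ω i.succ).2 - (ω i.castSucc).2| = 1) ∧
  Function.Injective ω

/-- `c_n`: the number of `n`-step self-avoiding walks from the origin -/
noncomputable def c (n : ℕ) : ℕ := Nat.card {ω : Fin (n + 1) → ℤ × ℤ // IsSAW n ω}

/-- `c_n(x)`: the number of `n`-step self-avoiding walks from the origin to `x` -/
noncomputable def cx (n : ℕ) (x : ℤ × ℤ) : ℕ :=
  Nat.card {ω : Fin (n + 1) → ℤ × ℤ // IsSAW n ω ∧ ω (Fin.last n) = x}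

/-- `P_n(ω(n) = x)` for the uniform `n`-step self-avoiding walk -/
noncomputable def P (n : ℕ) (x : ℤ × ℤ) : ℝ := (cx n x : ℝ) / (c n : ℝ)

/-- the two-point function `G_z(x) = ∑_n c_n(x) z^n` -/
noncomputable def G (z : ℝ) (x : ℤ × ℤ) : ℝ := ∑' n : ℕ, (cx n x : ℝ) * z ^ n

theorem c_eq (n : ℕ) : c n = TH795.EP.c n := TH795.EP.card_walks n

theorem cx_eq (n : ℕ) (x : ℤ × ℤ) : cx n x = TH795.EP.a n x.1 x.2 := TH795.EP.card_walks_to n x

theorem G_eq (z : ℝ) (k : ℕ) : G z ((k : ℤ), 0) = TH262.SawL.Gz z k 0 := by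
  unfold G TH262.SawL.Gz
  apply tsum_congr
  intro n
  rw [cx_eq]

/-- **Theorem.** (1) There is `K` such that for all `n ≥ 2` and all `k ≥ 1` with `2 k < n`, for the
uniform self-avoiding polygon of perimeter `2 n`,
`exp (- K (log n)^4) Prob(width ≥ 2 k) ≤ Prob(area ≥ k^2) ≤ 2 Prob(width ≥ k)` and
`exp (- K (log n)^4) P_{2n}(ω(2n) = (4k, 0)) ≤ Prob(area ≥ k^2)
  ≤ exp (K (log n)^4) P_{2n}(ω(2n) = (2k, 0))`.
(2) Let `μ = lim c_n^(1/n)`.  For `0 < z < 1/μ` the correlation length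
`ξ(z) = (lim_k - (1/k) log G_z((k, 0)))^(-1)` of the self-avoiding walk exists and is positive and
finite, and for every `θ` in `(0, 1)`:
(a) `ξ(z) ≤ (1/μ - z)^(-θ-o(1))` as `z ↑ 1/μ` if and only if for every `ε > 0` there is `δ > 0` such
that for all large `n` at most the proportion `exp (- n^δ)` of the polygons of perimeter `2 n` has
area at least `n^(2θ+ε)`;
(b) `ξ(z) ≥ (1/μ - z)^(-θ+o(1))` as `z ↑ 1/μ` if and only if for all `ε, δ > 0` and all large `n` at
least the proportion `exp (- n^δ)` of the polygons of perimeter `2 n` has area at least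
`n^(2θ-ε)`. -/
theorem result :
    (∃ K : ℝ, ∀ n : ℕ, 2 ≤ n → ∀ k : ℕ, 1 ≤ k → 2 * k < n →
      (Real.exp (-(K * Real.log n ^ 4)) * wide n (2 * k) ≤ large n ((k : ℝ) ^ 2) ∧
        large n ((k : ℝ) ^ 2) ≤ 2 * wide n k) ∧
      (Real.exp (-(K * Real.log n ^ 4)) * P (2 * n) (4 * k, 0) ≤ large n ((k : ℝ) ^ 2) ∧
        large n ((k : ℝ) ^ 2) ≤ Real.exp (K * Real.log n ^ 4) * P (2 * n) (2 * k, 0))) ∧
    ∃ (μ : ℝ) (ξ : ℝ → ℝ), 0 < μ ∧
      Tendsto (fun n : ℕ => (c n : ℝ) ^ (1 / (n : ℝ))) atTop (𝓝 μ) ∧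
      (∀ z : ℝ, 0 < z → z < 1 / μ → 0 < ξ z ∧
        Tendsto (fun k : ℕ => - Real.log (G z ((k : ℤ), 0)) / k) atTop (𝓝 (1 / ξ z))) ∧
      ∀ θ : ℝ, 0 < θ → θ < 1 →
        ((∀ ε : ℝ, 0 < ε → ∀ᶠ z in 𝓝[<] (1 / μ), ξ z ≤ (1 / μ - z) ^ (-(θ + ε))) ↔
          (∀ ε : ℝ, 0 < ε → ∃ δ : ℝ, 0 < δ ∧ ∀ᶠ n : ℕ in atTop,
            large n ((n : ℝ) ^ (2 * θ + ε)) ≤ Real.exp (-(n : ℝ) ^ δ))) ∧
        ((∀ ε : ℝ, 0 < ε → ∀ᶠ z in 𝓝[<] (1 / μ), (1 / μ - z) ^ (-(θ - ε)) ≤ ξ z) ↔
          (∀ ε : ℝ, 0 < ε → ∀ δ : ℝ, 0 < δ → ∀ᶠ n : ℕ in atTop,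
            Real.exp (-(n : ℝ) ^ δ) ≤ large n ((n : ℝ) ^ (2 * θ - ε)))) := by
  refine ⟨?_, H981.mu, TH262.SawL.xi, H981.mu_pos, ?_, ?_, ?_⟩
  · obtain ⟨K1, hK1, h1⟩ := TH262.SawL.area_width
    obtain ⟨K2, hK2, h2⟩ := TH262.SawL.area_end
    refine ⟨K1 + K2, ?_⟩
    intro n hn k hk hkn
    obtain ⟨g1, g2⟩ := h1 n hn k hk hkn
    obtain ⟨g3, g4⟩ := h2 n hn k hk hkn
    have hL : 0 ≤ Real.log n ^ 4 := by positivity
    have e1 := mul_nonneg hK1 hL
    have e2 := mul_nonneg hK2 hL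
    have p1 : (0 : ℝ) ≤ wide n (2 * k) := by unfold wide; positivity
    have p2 : ∀ x, (0 : ℝ) ≤ P (2 * n) x := by intro x; unfold P; positivity
    refine ⟨⟨?_, g2⟩, ?_, ?_⟩
    · refine le_trans (mul_le_mul_of_nonneg_right (Real.exp_le_exp.2 ?_) p1) g1
      linarith
    · refine le_trans (mul_le_mul_of_nonneg_right
        (b := Real.exp (-((K1 + K2) * Real.log n ^ 4)))
        (c := Real.exp (-(K2 * Real.log n ^ 4))) (Real.exp_le_exp.2 ?_) (p2 _)) ?_
      · linarith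
      · unfold P
        rw [c_eq, cx_eq]
        exact g3
    · refine g4.trans ?_
      have e3 : (TH795.EP.a (2 * n) (2 * k) 0 : ℝ) / TH795.EP.c (2 * n) = P (2 * n) (2 * k, 0) := by
        unfold P
        rw [c_eq, cx_eq]
      rw [e3]
      refine mul_le_mul_of_nonneg_right (Real.exp_le_exp.2 ?_) (p2 _)
      linarith
  · have h := H981.tendsto_root
    refine h.congr ?_
    intro n
    rw [c_eq, TH795.EP.c_eq]
  · intro z hz hz1
    have hmu := H981.mu_pos
    have he : 0 < -Real.log (z * H981.mu) := by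
      have h1 : z * H981.mu < 1 := by rwa [lt_div_iff₀ hmu] at hz1
      have h2 := Real.log_neg (mul_pos hz hmu) h1
      linarith
    have hm := TH262.SawL.mass_pos he
    constructor
    · unfold TH262.SawL.xi
      positivity
    · have h := TH262.SawL.G_tendsto hz hz1
      unfold TH262.SawL.xi
      rw [one_div_one_div]
      refine h.congr ?_
      intro k
      rw [G_eq]
  · intro θ h0 h1
    constructor
    · rw [← TH262.SawL.xi_upper θ h0]
      constructor
      · intro h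
        exact TH262.SawL.polyUp_areaUp (TH262.SawL.rUp_polyUp h1 (TH262.SawL.massLow_rUp h))
      · intro h
        exact TH262.SawL.rUp_massLow h0 h1 (TH262.SawL.areaUp_rUp h0 h)
    · rw [← TH262.SawL.xi_lower θ h0]
      constructor
      · intro h
        exact TH262.SawL.rLow_areaLow h0 (TH262.SawL.massUp_rLow h0 h1 h)
      · intro h
        exact TH262.SawL.rLow_massUp h0 h1
          (TH262.SawL.polyLow_rLow h1 (TH262.SawL.areaLow_polyLow h))

end Pool.Agent.Results.MP_f6626d_co.AreaTails
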